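import Pool.Agent.MP_cce4c9_lc.H87.SpecQ

/-! Every class has a reduced representative. -/

set_option autoImplicit false

open WithZero Polynomial Finset

namespace Pool.Agent.MP_cce4c9_lc.H20

open Pool.Agent.MP_cce4c9_lc.H87 Cv

section Ring

variable {k F : Type} [Field k] [CommRing F] [Algebra k F] (v : Place k F)

theorem val_zpow (u : Fˣ) (n : ℤ) : v.val ((u ^ n : Fˣ) : F) = exp (-(n * v.ord (u : F))) := by
  have := map_zpow (v.val.toMonoidWithZeroHom.toMonoidHom.comp (Units.coeHom F)) u n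
  refine this.trans ?_
  change v.val (u : F) ^ n = _
  nth_rewrite 1 [v.val_eq (v.val_unit_ne u)]
  rw [← exp_zsmul]
  simp

theorem val_pow_sub {z x : F} (hz : v.val z ≤ 1) (hx : v.val x ≤ 1) (n : ℕ) :
    v.val (z ^ n - x ^ n) ≤ v.val (z - x) := by
  induction n with
  | zero => simp
  | succ n ih =>
    rw [show z ^ (n + 1) - x ^ (n + 1) = z * (z ^ n - x ^ n) + (z - x) * x ^ n by ring]
    refine (v.val.map_add _ _).trans (max_le ?_ ?_) <;> rw [map_mul]
    · exact (mul_le_of_le_one_left' hz).trans ih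
    · exact mul_le_of_le_one_right' (by rw [map_pow]; exact pow_le_one' hx n)

theorem val_jet {p j l M : ℕ} [Fact p.Prime] [CharP F p] (hP : p ^ j = 1 + l * M) {w z b δ : F}
    (hw : v.val w ≤ 1) (hz : v.val z ≤ 1) (h1 : v.val (z - w ^ M) ≤ v.val δ)
    (h2 : v.val (w - b) < 1) (h3 : v.val δ ≠ 0) (h4 : v.ord δ ≤ (p ^ j : ℕ)) :
    v.val (w * z ^ l - b ^ p ^ j) ≤ v.val δ := by
  have e : w * z ^ l - b ^ p ^ j = w * (z ^ l - (w ^ M) ^ l) + (w - b) ^ p ^ j := by
    rw [sub_pow_char_pow]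
    nth_rewrite 2 [hP]
    ring
  rw [e]
  refine (v.val.map_add _ _).trans (max_le ?_ ?_)
  · rw [map_mul]
    exact (mul_le_of_le_one_left' hw).trans
      ((val_pow_sub v hz (by rw [map_pow]; exact pow_le_one' hw M) l).trans h1)
  · by_cases h0 : v.val (w - b) = 0
    · rw [map_pow, h0, zero_pow (pow_ne_zero _ (Fact.out : p.Prime).ne_zero)]
      exact zero_le
    · have k1 := (v.val_lt_one h0).1 h2
      rw [v.val_eq h3, v.val_le_exp (by rw [map_pow]; exact pow_ne_zero _ h0), v.ord_pow, neg_neg]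
      exact h4.trans (le_mul_of_one_le_right (by positivity) k1)

end Ring

theorem exists_pow (l p B : ℕ) [hl : Fact l.Prime] [hp : Fact p.Prime] (h : l ≠ p) :
    ∃ j M : ℕ, p ^ j = 1 + l * M ∧ B ≤ p ^ j := by
  have h1 : p ^ (l - 1) ≡ 1 [MOD l] := by
    have := Nat.ModEq.pow_totient ((Nat.coprime_primes hp.out hl.out).2 h.symm)
    rwa [Nat.totient_prime hl.out] at this
  have h2 : p ^ ((l - 1) * B) ≡ 1 [MOD l] := by
    rw [pow_mul]
    simpa using h1.pow B
  obtain ⟨M, hM⟩ := (Nat.modEq_iff_dvd' (Nat.one_le_pow _ _ hp.out.pos)).1 h2.symm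
  refine ⟨(l - 1) * B, M, by have := Nat.one_le_pow ((l - 1) * B) _ hp.out.pos; omega, ?_⟩
  refine le_trans ?_ (Nat.lt_pow_self hp.out.one_lt).le
  exact Nat.le_mul_of_pos_left _ (by have := hl.out.two_le; omega)

theorem sta : StmtSTA := by
  intro k _ _ l p d m hl hp _ f C hlp QA HA DE JE a
  classical
  have l0 : 0 < l := hl.out.pos
  have : NeZero l := ⟨l0.ne'⟩
  obtain ⟨u0, ha, ⟨n0, hG⟩, hdv⟩ := mem_MM.1 a.2
  have : Nontrivial C.Q := by
    obtain ⟨v, -⟩ := QA.inf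
    exact ⟨0, 1, fun e => by simpa using congrArg v.val e⟩
  have : CharP C.Q p := charP_of_injective_algebraMap (algebraMap k C.Q).injective p
  obtain ⟨B, hB1, hB2⟩ : ∃ B : ℕ, (∀ v, C.Bad v → v.ord C.dl ≤ B) ∧
      ∀ v : Place k C.Q, 1 < v.val C.t → v.ord C.dlh ≤ B := by
    obtain ⟨b1, h1⟩ := (HA.bad.1.image fun v => v.ord C.dl).bddAbove
    obtain ⟨b2, h2⟩ := (HA.infs.image fun v => v.ord C.dlh).bddAbove
    refine ⟨(max b1 b2).toNat, fun v hv => ?_, fun v hv => ?_⟩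
    · have := h1 ⟨v, hv, rfl⟩
      simp only at this
      omega
    · have := h2 ⟨v, hv, rfl⟩
      simp only at this
      omega
  obtain ⟨j, M, hP, hB⟩ := exists_pow l p B hlp
  have hB' : (B : ℤ) ≤ (p ^ j : ℕ) := by exact_mod_cast hB
  let E : Dv k C.Q := dv k (u0.1 : C.Q) + ((l * N0 d m : ℕ) : ℤ) • C.Dinf
  have hE : ∀ v, E v = v.ord (u0.1 : C.Q) + (l * N0 d m : ℕ) * C.Dinf v := fun v => by
    simp only [E, Finsupp.add_apply, Finsupp.smul_apply, dv_apply (QA.fins _), smul_eq_mul]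
  let D : Dv k C.Q := E.mapRange (· / (l : ℤ)) (by simp)
  have hD : ∀ v, (l : ℤ) * D v = E v := fun v => by
    refine Int.mul_ediv_cancel' ?_
    rw [hE]
    exact (hdv v).add (by push_cast; rw [mul_assoc]; exact dvd_mul_right _ _)
  have l1 : (l : ℤ) ≠ 0 := by exact_mod_cast l0.ne'
  let w : C.Qˣ := u0.1 * C.su ^ ((l : ℤ) * n0)
  let n : ℤ := (N0 d m : ℤ) - n0
  have hw : ∀ v : Place k C.Q, 1 < v.val C.t → v.val (w : C.Q) = 1 := fun v hv =>
    near_one (c := 1) one_ne_zero (by rw [map_one]; exact hG.1 v hv)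
  have hDi : ∀ v : Place k C.Q, 1 < v.val C.t → D v = n * v.ord C.s := fun v hv => by
    have h1 := hw v hv
    rw [Units.val_mul, map_mul, val_zpow, v.val_eq (v.val_unit_ne _), ← exp_add, ← exp_zero,
      exp_inj] at h1
    have h2 := hD v
    rw [hE, HA.Dinf_apply, if_pos hv] at h2
    change -v.ord (u0.1 : C.Q) + -(l * n0 * v.ord C.s) = 0 at h1
    refine mul_left_cancel₀ l1 ?_
    push_cast at h2
    simp only [n]
    linear_combination h2 - h1
  have hDf : ∀ v : Place k C.Q, v.val C.t ≤ 1 → l * D v = v.ord (u0.1 : C.Q) := fun v hv => by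
    rw [hD, hE, HA.Dinf_apply, if_neg (not_lt.2 hv), mul_zero, add_zero]
  have hDb : ∀ v, C.Bad v → D v = 0 := fun v hv => by
    have := hDf v hv.1
    rw [v.ord_of_val_one (DE.bad _ _ hG v hv)] at this
    exact (mul_eq_zero.1 this).resolve_left l1
  let T : Place k C.Q → C.Q := fun v =>
    if 1 < v.val C.t then ((w ^ M * C.su ^ (-n) : C.Qˣ) : C.Q) else (u0.1 : C.Q) ^ M
  have hTi : ∀ v : Place k C.Q, 1 < v.val C.t → v.val (T v) = exp (D v) := fun v hv => by
    simp only [T, if_pos hv]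
    rw [Units.val_mul, map_mul, val_zpow, Units.val_pow_eq_pow_val, map_pow, hw v hv, hDi v hv]
    simp [su]
  have hTb : ∀ v, C.Bad v → T v = (u0.1 : C.Q) ^ M := fun v hv => if_neg (not_lt.2 hv.1)
  obtain ⟨y, hyL, hyb, hyi⟩ := JE D u0.1 l l0 (Finsupp.ext fun v => hD v) T fun v hv => by
    rcases hv with hv | hv
    · rw [hTb v hv, map_pow, DE.bad _ _ hG v hv, hDb v hv]
      simp
    · exact (hTi v hv).le
  have hyb' : ∀ v, C.Bad v → v.val (y - (u0.1 : C.Q) ^ M) ≤ v.val C.dl := fun v hv => by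
    have := hyb v hv
    rwa [hTb v hv, hDb v hv, exp_zero, one_mul] at this
  have hz : ∀ v : Place k C.Q, 1 < v.val C.t →
      v.val (y * (C.su ^ n : C.Qˣ) - (w : C.Q) ^ M) ≤ v.val C.dlh := fun v hv => by
    have e : y * (C.su ^ n : C.Qˣ) - (w : C.Q) ^ M = (y - T v) * (C.su ^ n : C.Qˣ) := by
      simp only [T, if_pos hv]
      rw [sub_mul, ← Units.val_mul, mul_assoc, ← zpow_add, neg_add_cancel, zpow_zero, mul_one,
        Units.val_pow_eq_pow_val]
    rw [e, map_mul, val_zpow]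
    refine (mul_le_mul_left (hyi v hv) _).trans (le_of_eq ?_)
    rw [mul_right_comm, hDi v hv, ← exp_add]
    simp [su]
  have hz1 : ∀ v : Place k C.Q, 1 < v.val C.t → v.val (y * (C.su ^ n : C.Qˣ) - 1) < 1 :=
    fun v hv => by
      rw [← sub_add_sub_cancel _ ((w : C.Q) ^ M)]
      refine (v.val.map_add _ _).trans_lt (max_lt ((hz v hv).trans_lt (HA.infI v hv).2.2.1) ?_)
      have := val_pow_sub v (hw v hv).le (x := 1) (by simp) M
      rw [one_pow] at this
      exact this.trans_lt (hG.1 v hv)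
  have hz2 : ∀ v : Place k C.Q, 1 < v.val C.t → v.val (y * (C.su ^ n : C.Qˣ)) = 1 := fun v hv =>
    near_one (c := 1) one_ne_zero (by simpa using hz1 v hv)
  obtain ⟨yu, rfl⟩ := QA.unit y fun v hv h0 => by
    have := hz2 v hv
    rw [map_mul, h0, zero_mul] at this
    exact zero_ne_one this
  have hat : ∀ (b : ℕ → k) v₀, C.At v₀ b → v₀.val C.dl < 1 → ∀ v, C.At v b → C.Bad v :=
    fun b v₀ h0 h1 v hv => by
      have e := v₀.const_eq (HA.atT v₀ b h0).2.2.1 (b := 0) (by simpa using h1)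
      have := (HA.atT v b hv).2.2.1
      rw [e, map_zero, sub_zero] at this
      exact ⟨(HA.atT v b hv).1, this⟩
  have hy : C.GG n yu := by
    refine ⟨fun v hv => hz1 v hv, fun b v₀ h0 h1 => ?_⟩
    obtain ⟨c, hc, H⟩ := hG.2 b v₀ h0 h1
    refine ⟨c ^ M, pow_ne_zero _ hc, fun v hv => ?_⟩
    have hb := hat b v₀ h0 h1 v hv
    rw [← sub_add_sub_cancel _ ((u0.1 : C.Q) ^ M), map_pow]
    exact (v.val.map_add _ _).trans_lt (max_lt ((hyb' v hb).trans_lt hb.2)
      ((val_pow_sub v (DE.bad _ _ hG v hb).le (v.const_le c) M).trans_lt (H v hv)))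
  refine ⟨u0 * ⟨yu, n, hy⟩ ^ l, ⟨?_, ?_, fun v => ?_⟩, ?_⟩
  · have := hG.mul (hy.pow l)
    rw [show (l : ℤ) * n0 + l * n = ((l * N0 d m : ℕ) : ℤ) by simp only [n]; push_cast; ring] at this
    exact this
  · obtain ⟨a0, hA, h0⟩ := DE.int (fun v => v.ev (u0.1 : C.Q)) fun v v' b hv h1 h2 => by
      obtain ⟨c, -, H⟩ := hG.2 b v h1 hv.2
      rw [v.ev_eq (H v h1), v'.ev_eq (H v' h2)]
    have hdl : ∀ v : Place k C.Q, v.val C.dl ≠ 0 := fun v => v.val_unit_ne HA.dlU.unit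
    refine DE.mem _ _ ⟨a0 ^ p ^ j, pow_mem hA _, fun v hv => ?_⟩ ⟨1, one_mem _, fun v hv => ?_⟩
    · change v.val ((u0.1 : C.Q) * ((yu ^ l : C.Qˣ) : C.Q) - _) ≤ _
      rw [Units.val_pow_eq_pow_val]
      by_cases hb : C.Bad v
      · have h1 := DE.bad _ _ hG v hb
        refine val_jet v hP h1.le (DE.bad _ _ hy v hb).le (hyb' v hb) ?_ (hdl v)
          ((hB1 v hb).trans hB')
        rw [← sub_sub_sub_cancel_right _ _ (algebraMap k C.Q (v.ev (u0.1 : C.Q)))]
        exact (v.val.map_sub _ _).trans_lt (max_lt ((QA.res v).ev_spec h1.le) (h0 v hb))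
      · refine le_trans ?_ (not_lt.1 fun h => hb ⟨hv, h⟩)
        refine (v.val.map_sub _ _).trans (max_le ?_ (HA.finA v hv _ (pow_mem hA _)))
        rw [map_mul, map_pow, v.val_eq (v.val_unit_ne u0.1), ← hDf v hv]
        refine (mul_le_mul_right (pow_le_pow_left' (hyL v) l) _).trans (le_of_eq ?_)
        rw [← exp_nsmul, ← exp_add]
        simp
    · have e : ((u0 * ⟨yu, n, hy⟩ ^ l : C.HH).1 : C.Q) * C.s ^ (l * N0 d m) =
          (w : C.Q) * ((yu : C.Q) * (C.su ^ n : C.Qˣ)) ^ l := by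
        have : (u0.1 * yu ^ l) * C.su ^ (l * N0 d m) = w * (yu * C.su ^ n) ^ l := by
          simp only [w, n]
          rw [mul_pow, ← zpow_natCast (C.su ^ _), ← zpow_mul, mul_mul_mul_comm, ← zpow_add,
            ← zpow_natCast C.su]
          congr 2
          push_cast
          ring
        simpa [su] using congrArg Units.val this
      rw [e, ← one_pow (M := C.Q) (p ^ j)]
      refine val_jet v hP (hw v hv).le (hz2 v hv).le (hz v hv) (hG.1 v hv) ?_ ((hB2 v hv).trans hB')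
      rw [dlh, map_mul, map_pow]
      exact mul_ne_zero (pow_ne_zero _ (v.val_unit_ne C.su)) (hdl v)
  · change (l : ℤ) ∣ v.ord ((u0.1 : C.Q) * ((yu ^ l : C.Qˣ) : C.Q))
    rw [v.ord_mul (v.val_unit_ne _) (v.val_unit_ne _), Units.val_pow_eq_pow_val, v.ord_pow]
    exact (hdv v).add (dvd_mul_right _ _)
  · rw [← ha]
    exact (Hl.mk_eq_mk l _ _).2 ⟨_, rfl⟩

end Pool.Agent.MP_cce4c9_lc.H20
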